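import Pool.Agent.N699.RG.Rep

set_option autoImplicit false

/-! The second moment of the number of the translates without primes. -/

namespace Pool.Agent.N699.RC
open Finset
open Pool.Agent.W93.TD (avg_w total_w)

/-- the indicator of the primes -/
noncomputable def pr (m : ℕ) : ℝ := if m.Prime then 1 else 0

lemma pr_nonneg (m : ℕ) : 0 ≤ pr m := by unfold pr; split_ifs <;> norm_num
lemma pr_le_one (m : ℕ) : pr m ≤ 1 := by unfold pr; split_ifs <;> norm_num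
lemma pr_sq (m : ℕ) : pr m * pr m = pr m := by unfold pr; split_ifs <;> norm_num

variable {n : ℕ}

lemma expect_prod (Ω : Fin n → Finset ℕ) (p : Fin n → ℕ → ℝ) (g : Fin n → ℕ → ℝ) :
    ∑ v ∈ Fintype.piFinset Ω, (∏ i, p i (v i)) * ∏ i, g i (v i) = ∏ i, ∑ u ∈ Ω i, p i u * g i u := by
  rw [prod_univ_sum]
  apply sum_congr rfl
  intro v _
  rw [← prod_mul_distrib]

/-- the number of the translates without primes -/
noncomputable def Z (N : ℕ) (v : Fin n → ℕ) : ℝ := ∑ x ∈ Icc 1 N, ∏ i, (1 - pr (x + v i))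

lemma Z_nonneg (N : ℕ) (v : Fin n → ℕ) : 0 ≤ Z N v :=
  sum_nonneg fun x _ => prod_nonneg fun i _ => by linarith [pr_le_one (x + v i)]

/-- the probability of a prime -/
noncomputable def q1 (Ω : Fin n → Finset ℕ) (p : Fin n → ℕ → ℝ) (i : Fin n) (x : ℕ) : ℝ := ∑ u ∈ Ω i, p i u * pr (x + u)

/-- the probability of two primes -/
noncomputable def q2 (Ω : Fin n → Finset ℕ) (p : Fin n → ℕ → ℝ) (i : Fin n) (x y : ℕ) : ℝ :=
  ∑ u ∈ Ω i, p i u * (pr (x + u) * pr (y + u))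

/-- the expected number -/
noncomputable def EZ (N : ℕ) (Ω : Fin n → Finset ℕ) (p : Fin n → ℕ → ℝ) : ℝ := ∑ x ∈ Icc 1 N, ∏ i, (1 - q1 Ω p i x)

lemma mean_Z (N : ℕ) (Ω : Fin n → Finset ℕ) (p : Fin n → ℕ → ℝ) (hp1 : ∀ i, ∑ u ∈ Ω i, p i u = 1) :
    ∑ v ∈ Fintype.piFinset Ω, (∏ i, p i (v i)) * Z N v = EZ N Ω p := by
  unfold Z EZ
  rw [sum_congr rfl fun v _ => mul_sum _ _ _, sum_comm]
  apply sum_congr rfl
  intro x _
  rw [expect_prod Ω p (fun i u => 1 - pr (x + u))]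
  apply prod_congr rfl
  intro i _
  unfold q1
  simp only [mul_sub, mul_one, sum_sub_distrib]
  rw [hp1]

lemma second_Z (N : ℕ) (Ω : Fin n → Finset ℕ) (p : Fin n → ℕ → ℝ) (hp : ∀ i, ∀ u ∈ Ω i, 0 ≤ p i u) (hp1 : ∀ i, ∑ u ∈ Ω i, p i u = 1)
    (τ : ℝ) (hτ : 0 ≤ τ) (hhalf : ∀ i, ∀ x ∈ Icc 1 N, q1 Ω p i x ≤ 1 / 2)
    (hpair : ∀ i, ∀ x ∈ Icc 1 N, ∀ y ∈ Icc 1 N, x ≠ y → q2 Ω p i x y ≤ τ) :
    ∑ v ∈ Fintype.piFinset Ω, (∏ i, p i (v i)) * Z N v ^ 2 ≤ Real.exp (4 * (n * τ)) * EZ N Ω p ^ 2 + EZ N Ω p := by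
  have h1 : ∑ v ∈ Fintype.piFinset Ω, (∏ i, p i (v i)) * Z N v ^ 2 =
      ∑ x ∈ Icc 1 N, ∑ y ∈ Icc 1 N, ∏ i, ∑ u ∈ Ω i, p i u * ((1 - pr (x + u)) * (1 - pr (y + u))) := by
    have e1 : ∀ v ∈ Fintype.piFinset Ω, (∏ i, p i (v i)) * Z N v ^ 2 =
        ∑ x ∈ Icc 1 N, ∑ y ∈ Icc 1 N, (∏ i, p i (v i)) * ∏ i, ((1 - pr (x + v i)) * (1 - pr (y + v i))) := by
      intro v _
      unfold Z
      rw [sq, sum_mul_sum, mul_sum]
      apply sum_congr rfl
      intro x _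
      rw [mul_sum]
      apply sum_congr rfl
      intro y _
      rw [prod_mul_distrib]
    rw [sum_congr rfl e1, sum_comm]
    apply sum_congr rfl
    intro x _
    rw [sum_comm]
    apply sum_congr rfl
    intro y _
    rw [expect_prod Ω p (fun i u => (1 - pr (x + u)) * (1 - pr (y + u)))]
  have hq0 : ∀ i x, 0 ≤ q1 Ω p i x := fun i x => sum_nonneg fun u hu => mul_nonneg (hp i u hu) (pr_nonneg _)
  have hfac : ∀ i x y, ∑ u ∈ Ω i, p i u * ((1 - pr (x + u)) * (1 - pr (y + u))) = 1 - q1 Ω p i x - q1 Ω p i y + q2 Ω p i x y := by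
    intro i x y
    unfold q1 q2
    conv_rhs => rw [← hp1 i]
    rw [← sum_sub_distrib, ← sum_sub_distrib, ← sum_add_distrib]
    exact sum_congr rfl fun u _ => by ring
  have h2 : ∀ x ∈ Icc 1 N, ∀ y ∈ Icc 1 N, ∏ i, ∑ u ∈ Ω i, p i u * ((1 - pr (x + u)) * (1 - pr (y + u))) ≤
      Real.exp (4 * (n * τ)) * ((∏ i, (1 - q1 Ω p i x)) * ∏ i, (1 - q1 Ω p i y)) + (if y = x then ∏ i, (1 - q1 Ω p i x) else 0) := by
    intro x hx y hy
    have hA : 0 ≤ ∏ i, (1 - q1 Ω p i x) := prod_nonneg fun i _ => by linarith [hhalf i x hx]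
    have hB : 0 ≤ ∏ i, (1 - q1 Ω p i y) := prod_nonneg fun i _ => by linarith [hhalf i y hy]
    by_cases hxy : y = x
    · rw [if_pos hxy, hxy]
      have e1 : ∏ i, ∑ u ∈ Ω i, p i u * ((1 - pr (x + u)) * (1 - pr (x + u))) = ∏ i, (1 - q1 Ω p i x) := by
        apply prod_congr rfl
        intro i _
        rw [hfac]
        have : q2 Ω p i x x = q1 Ω p i x := by
          unfold q1 q2
          exact sum_congr rfl fun u _ => by rw [pr_sq]
        rw [this]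
        ring
      rw [e1]
      have : 0 ≤ Real.exp (4 * (n * τ)) * ((∏ i, (1 - q1 Ω p i x)) * ∏ i, (1 - q1 Ω p i x)) := by positivity
      linarith
    · rw [if_neg hxy, add_zero]
      have e1 : Real.exp (4 * (n * τ)) * ((∏ i, (1 - q1 Ω p i x)) * ∏ i, (1 - q1 Ω p i y)) =
          ∏ i : Fin n, (Real.exp (4 * τ) * ((1 - q1 Ω p i x) * (1 - q1 Ω p i y))) := by
        rw [prod_mul_distrib, prod_mul_distrib, prod_const, card_univ, Fintype.card_fin, ← Real.exp_nat_mul]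
        congr 2
        ring
      rw [e1]
      apply prod_le_prod
      · intro i _
        apply sum_nonneg
        intro u hu
        have g1 := pr_le_one (x + u)
        have g2 := pr_le_one (y + u)
        exact mul_nonneg (hp i u hu) (mul_nonneg (by linarith) (by linarith))
      · intro i _
        rw [hfac]
        have g1 := hhalf i x hx
        have g2 := hhalf i y hy
        have g3 := hpair i x hx y hy (fun hcon => hxy hcon.symm)
        have g4 := hq0 i x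
        have g5 := hq0 i y
        have g6 := Real.add_one_le_exp (4 * τ)
        have g7 : 1 / 4 ≤ (1 - q1 Ω p i x) * (1 - q1 Ω p i y) := by nlinarith
        have g8 : (4 * τ + 1) * ((1 - q1 Ω p i x) * (1 - q1 Ω p i y)) ≤ Real.exp (4 * τ) * ((1 - q1 Ω p i x) * (1 - q1 Ω p i y)) :=
          mul_le_mul_of_nonneg_right g6 (by linarith)
        nlinarith [mul_nonneg g4 g5]
  rw [h1]
  refine (sum_le_sum fun x hx => sum_le_sum fun y hy => h2 x hx y hy).trans (le_of_eq ?_)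
  simp only [sum_add_distrib]
  congr 1
  · unfold EZ
    rw [sq, sum_mul_sum, mul_sum]
    apply sum_congr rfl
    intro x _
    rw [mul_sum]
  · unfold EZ
    apply sum_congr rfl
    intro x hx
    rw [sum_ite_eq' (Icc 1 N) x, if_pos hx]

open Classical in
/-- Chebyshev -/
lemma cheb (N : ℕ) (Ω : Fin n → Finset ℕ) (p : Fin n → ℕ → ℝ) (hp : ∀ i, ∀ u ∈ Ω i, 0 ≤ p i u) (hp1 : ∀ i, ∑ u ∈ Ω i, p i u = 1)
    (τ : ℝ) (hτ : 0 ≤ τ) (hhalf : ∀ i, ∀ x ∈ Icc 1 N, q1 Ω p i x ≤ 1 / 2)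
    (hpair : ∀ i, ∀ x ∈ Icc 1 N, ∀ y ∈ Icc 1 N, x ≠ y → q2 Ω p i x y ≤ τ) (ε : ℝ) (hε : 0 < ε) (hE : 0 < EZ N Ω p) :
    ∑ v ∈ Fintype.piFinset Ω, (if |Z N v - EZ N Ω p| ≤ ε * EZ N Ω p then 0 else ∏ i, p i (v i)) ≤
      (Real.exp (4 * (n * τ)) - 1 + 1 / EZ N Ω p) / ε ^ 2 := by
  obtain ⟨E, hEd⟩ : ∃ E, E = EZ N Ω p := ⟨_, rfl⟩
  rw [← hEd] at hE ⊢
  have h0 : ∀ v ∈ Fintype.piFinset Ω, 0 ≤ ∏ i, p i (v i) := fun v hv => prod_nonneg fun j _ => hp j _ (Fintype.mem_piFinset.1 hv j)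
  have h1 : ∀ v ∈ Fintype.piFinset Ω, (if |Z N v - E| ≤ ε * E then 0 else ∏ i, p i (v i)) ≤
      (1 / (ε * E) ^ 2) * ((∏ i, p i (v i)) * Z N v ^ 2 - 2 * E * ((∏ i, p i (v i)) * Z N v) + E ^ 2 * ∏ i, p i (v i)) := by
    intro v hv
    have e1 : (∏ i, p i (v i)) * Z N v ^ 2 - 2 * E * ((∏ i, p i (v i)) * Z N v) + E ^ 2 * ∏ i, p i (v i) =
        (∏ i, p i (v i)) * |Z N v - E| ^ 2 := by
      rw [sq_abs]
      ring
    rw [e1]
    have hP := h0 v hv
    split_ifs with hb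
    · positivity
    · rw [not_le] at hb
      have e2 : (ε * E) ^ 2 ≤ |Z N v - E| ^ 2 := pow_le_pow_left₀ (by positivity) hb.le 2
      have e3 : 1 ≤ (1 / (ε * E) ^ 2) * |Z N v - E| ^ 2 := by
        rw [one_div_mul_eq_div, one_le_div (by positivity)]
        exact e2
      calc ∏ i, p i (v i) = (∏ i, p i (v i)) * 1 := (mul_one _).symm
        _ ≤ (∏ i, p i (v i)) * ((1 / (ε * E) ^ 2) * |Z N v - E| ^ 2) := mul_le_mul_of_nonneg_left e3 hP
        _ = _ := by ring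
  refine (sum_le_sum h1).trans ?_
  have h2 := second_Z N Ω p hp hp1 τ hτ hhalf hpair
  rw [← hEd] at h2
  rw [← mul_sum, sum_add_distrib, sum_sub_distrib, ← mul_sum, ← mul_sum, mean_Z N Ω p hp1, ← hEd, total_w Ω p hp1]
  have h3 : ∑ v ∈ Fintype.piFinset Ω, (∏ i, p i (v i)) * Z N v ^ 2 - 2 * E * E + E ^ 2 * 1 ≤
      (Real.exp (4 * (n * τ)) - 1 + 1 / E) * E ^ 2 := by
    have : (1 / E) * E ^ 2 = E := by field_simp
    nlinarith
  calc (1 / (ε * E) ^ 2) * (∑ v ∈ Fintype.piFinset Ω, (∏ i, p i (v i)) * Z N v ^ 2 - 2 * E * E + E ^ 2 * 1) ≤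
        (1 / (ε * E) ^ 2) * ((Real.exp (4 * (n * τ)) - 1 + 1 / E) * E ^ 2) := mul_le_mul_of_nonneg_left h3 (by positivity)
    _ = _ := by field_simp

open Classical in
/-- the union bound -/
lemma union (N : ℕ) (Ω : Fin n → Finset ℕ) (p : Fin n → ℕ → ℝ) (hp : ∀ i, ∀ u ∈ Ω i, 0 ≤ p i u) (hp1 : ∀ i, ∑ u ∈ Ω i, p i u = 1) :
    ∑ v ∈ Fintype.piFinset Ω, (if Z N v = 0 then 0 else ∏ i, p i (v i)) ≤ EZ N Ω p := by
  rw [← mean_Z N Ω p hp1]
  apply sum_le_sum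
  intro v hv
  have hP : 0 ≤ ∏ i, p i (v i) := prod_nonneg fun j _ => hp j _ (Fintype.mem_piFinset.1 hv j)
  split_ifs with h
  · rw [h, mul_zero]
  · have h1 : 1 ≤ Z N v := by
      by_contra hcon
      apply h
      unfold Z at hcon ⊢
      apply sum_eq_zero
      intro x hx
      by_contra hne
      apply hcon
      have h2 : ∀ i, 1 - pr (x + v i) = 1 := by
        intro i
        by_contra h3
        apply hne
        apply prod_eq_zero (mem_univ i)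
        unfold pr at h3 ⊢
        split_ifs at h3 ⊢ with h4
        · norm_num
        · exact absurd (by norm_num) h3
      have h5 : ∏ i, (1 - pr (x + v i)) = 1 := prod_eq_one fun i _ => h2 i
      calc (1 : ℝ) = ∏ i, (1 - pr (x + v i)) := h5.symm
        _ ≤ ∑ x ∈ Icc 1 N, ∏ i, (1 - pr (x + v i)) :=
          single_le_sum (f := fun x => ∏ i, (1 - pr (x + v i)))
            (fun y _ => prod_nonneg fun i _ => by linarith [pr_le_one (y + v i)]) hx
    calc ∏ i, p i (v i) = (∏ i, p i (v i)) * 1 := (mul_one _).symm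
      _ ≤ _ := mul_le_mul_of_nonneg_left h1 hP

end Pool.Agent.N699.RC
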