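import Pool.Agent.N699.RC.Phi
import Pool.Agent.N699.RC.Sec
import Pool.Agent.N699.RG.Inp
import Pool.Agent.Helper112.PairSieve

set_option autoImplicit false

/-! The primes and the prime pairs in the intervals. -/

namespace Pool.Agent.N699.RC
open Finset
open Pool.Agent.H373R2.T7
open Pool.Agent.N699.RP
open Pool.Agent.N699.GC
open Pool.Agent.N699.RG (pp_sum Icc_Ioc shift_sum)
open ArithmeticFunction (vonMangoldt)

lemma sum_shift (g : ℕ → ℝ) (c M : ℕ) : ∑ u ∈ Icc (c + 1) (c + M), g u = ∑ m ∈ Icc 1 M, g (m + c) := by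
  have h1 : (Icc 1 M).map (addRightEmbedding c) = Icc (c + 1) (c + M) := by
    rw [map_add_right_Icc, add_comm 1 c, add_comm M c]
  rw [← h1, sum_map]
  rfl

lemma sum_diff (g : ℕ → ℝ) (c M : ℕ) : ∑ m ∈ Icc 1 M, g (m + c) = ∑ m ∈ Icc 1 (c + M), g m - ∑ m ∈ Icc 1 c, g m := by
  rw [← sum_shift]
  have h1 : Icc (c + 1) (c + M) = Ioc c (c + M) := by
    ext m
    rw [mem_Icc, mem_Ioc]
    omega
  rw [h1, Icc_Ioc, Icc_Ioc, ← sum_Ioc_consecutive g (Nat.zero_le c) (Nat.le_add_right c M)]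
  ring

/-- the primes in the intervals of length `N / log ^ A N` -/
theorem pnt_int (A B : ℕ) (δ : ℝ) (hδ : 0 < δ) : ∃ n0 : ℕ, ∀ N, n0 ≤ N → ∀ c M : ℕ, (N : ℝ) ≤ Real.log N ^ A * M →
    c + M ≤ (B + 1) * N →
    (1 - δ) / Real.log N * M ≤ ∑ m ∈ Icc 1 M, pr (m + c) ∧ ∑ m ∈ Icc 1 M, pr (m + c) ≤ (1 + δ) / Real.log N * M := by
  obtain ⟨η, hη⟩ : ∃ η : ℝ, η = min (δ / 4) (1 / 4) := ⟨_, rfl⟩
  have hη0 : 0 < η := by rw [hη]; exact lt_min (by linarith) (by norm_num)
  have hηδ : η ≤ δ / 4 := by rw [hη]; exact min_le_left _ _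
  have hη4 : η ≤ 1 / 4 := by rw [hη]; exact min_le_right _ _
  obtain ⟨b, hb⟩ : ∃ b : ℝ, b = (B : ℝ) + 1 := ⟨_, rfl⟩
  have hb0 : (0 : ℝ) ≤ B := Nat.cast_nonneg _
  have hb1 : 1 ≤ b := by rw [hb]; linarith
  have hlogb : 0 ≤ Real.log b := Real.log_nonneg hb1
  obtain ⟨n1, h1⟩ := lam_ap 0 (A + 2)
  obtain ⟨n2, h2⟩ := ev_L' ((2 * b + 1) / η + Real.log b / η + Real.log b + 2)
  obtain ⟨n3, h3⟩ := loglog_small (A + 2) η hη0
  obtain ⟨n4, h4⟩ := log_small (2 * A + 4) (16 * b)
  refine ⟨n1 + n2 + n3 + n4 + 3, fun N hN c M hNM hcM => ?_⟩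
  have a2 := h2 N (by omega)
  have a3 := h3 N (by omega)
  have a4 := h4 N (by omega)
  have hN1 : 1 ≤ N := by omega
  have hN0 : (0 : ℝ) < N := by exact_mod_cast hN1
  obtain ⟨L, hL⟩ : ∃ L, L = Real.log (N : ℝ) := ⟨_, rfl⟩
  rw [← hL] at a2 a3 a4 hNM ⊢
  have q1 : 0 ≤ (2 * b + 1) / η := by positivity
  have q2 : 0 ≤ Real.log b / η := by positivity
  have hL1 : 1 ≤ L := by linarith
  have hL0 : 0 < L := by linarith
  have hLb : 2 * b + 1 ≤ η * L := by
    have : (2 * b + 1) / η ≤ L := by linarith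
    rw [div_le_iff₀ hη0] at this
    linarith
  have hLlb : Real.log b ≤ η * L := by
    have : Real.log b / η ≤ L := by linarith
    rw [div_le_iff₀ hη0] at this
    linarith
  have hM0 : (0 : ℝ) < M := by
    have : 0 < L ^ A * M := by linarith
    exact (pos_iff_pos_of_mul_pos this).1 (by positivity)
  obtain ⟨X, hX⟩ : ∃ X, X = (B + 1) * N := ⟨_, rfl⟩
  have hX1 : 1 ≤ X := by rw [hX]; exact Nat.mul_pos (by omega) hN1
  have hNX : N ≤ X := by rw [hX]; exact Nat.le_mul_of_pos_left _ (by omega)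
  have hXr : (X : ℝ) = b * N := by rw [hX, hb]; push_cast; ring
  have hlX : Real.log X = Real.log b + L := by rw [hXr, Real.log_mul (by positivity) hN0.ne', hL]
  have hlXη : Real.log X ≤ (1 + η) * L := by rw [hlX]; linarith
  have hlX2 : Real.log X ≤ 2 * L := by nlinarith
  have hlXL : L ≤ Real.log X := by rw [hlX]; linarith
  have hlX0 : 0 < Real.log (X : ℝ) := by linarith
  have hpnt : ∀ y : ℕ, y ≤ X → |∑ m ∈ Icc 1 y, vonMangoldt m - y| ≤ b * M / L ^ 2 := by
    intro y hy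
    have e1 := h1 X (by omega) 1 le_rfl (by rw [Nat.cast_one, pow_zero]) 0 y hy
    have e2 : (Icc 1 y).filter (fun n => n ≡ 0 [MOD 1]) = Icc 1 y := by
      apply filter_true_of_mem
      intro n _
      exact Nat.modEq_one
    rw [e2, if_pos (by simp), Nat.totient_one, Nat.cast_one, div_one] at e1
    refine e1.trans ?_
    calc (X : ℝ) / Real.log X ^ (A + 2) ≤ X / L ^ (A + 2) := by
          apply div_le_div_of_nonneg_left (by positivity) (by positivity)
          exact pow_le_pow_left₀ hL0.le hlXL _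
      _ = b * N / (L ^ A * L ^ 2) := by rw [hXr, pow_add]
      _ ≤ b * (L ^ A * M) / (L ^ A * L ^ 2) := by
          apply div_le_div_of_nonneg_right _ (by positivity)
          exact mul_le_mul_of_nonneg_left hNM (by linarith)
      _ = b * M / L ^ 2 := by field_simp
  have hT : |∑ m ∈ Icc 1 M, vonMangoldt (m + c) - M| ≤ 2 * (b * M / L ^ 2) := by
    rw [sum_diff]
    have e1 := hpnt (c + M) (by rw [hX]; exact hcM)
    have e2 := hpnt c (by rw [hX]; omega)
    have e3 : ∑ m ∈ Icc 1 (c + M), vonMangoldt m - ∑ m ∈ Icc 1 c, vonMangoldt m - (M : ℝ) =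
        (∑ m ∈ Icc 1 (c + M), vonMangoldt m - ((c + M : ℕ) : ℝ)) - (∑ m ∈ Icc 1 c, vonMangoldt m - (c : ℝ)) := by
      push_cast
      ring
    rw [e3]
    refine (abs_sub _ _).trans ?_
    linarith
  obtain ⟨g1, g2⟩ := abs_le.1 hT
  have hsmall : 2 * (b * M / L ^ 2) ≤ 2 * b / L * M := by
    have : 1 / L ^ 2 ≤ 1 / L := one_div_le_one_div_of_le hL0 (by nlinarith)
    calc 2 * (b * M / L ^ 2) = 2 * b * M * (1 / L ^ 2) := by ring
      _ ≤ 2 * b * M * (1 / L) := mul_le_mul_of_nonneg_left this (by positivity)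
      _ = _ := by ring
  obtain ⟨S, hS⟩ : ∃ S, S = ∑ m ∈ Icc 1 M, pr (m + c) := ⟨_, rfl⟩
  have hS0 : 0 ≤ S := by rw [hS]; exact sum_nonneg fun _ _ => pr_nonneg _
  rw [← hS]
  have hLη : (2 * b + 1) / L ≤ η := by rw [div_le_iff₀ hL0]; exact hLb
  have h1L : 1 / L = 1 / L := rfl
  constructor
  · -- lower bound
    have e1 : ∀ m ∈ Icc 1 M, vonMangoldt (m + c) ≤ pr (m + c) * Real.log X + (if (m + c).Prime then 0 else vonMangoldt (m + c)) := by
      intro m hm
      rw [mem_Icc] at hm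
      unfold pr
      split_ifs with hp
      · rw [ArithmeticFunction.vonMangoldt_apply_prime hp, one_mul, add_zero]
        apply Real.log_le_log (by exact_mod_cast hp.pos)
        have : m + c ≤ X := by rw [hX]; omega
        exact_mod_cast this
      · linarith
    have e2 := sum_le_sum e1
    rw [sum_add_distrib, ← sum_mul, ← hS] at e2
    have e3 : ∑ m ∈ Icc 1 M, (if (m + c).Prime then 0 else vonMangoldt (m + c)) ≤ 2 * Real.sqrt X * Real.log X := by
      refine (shift_sum M X (fun m => if m.Prime then 0 else vonMangoldt m) (fun m => ?_) c (by rw [hX]; omega)).trans (pp_sum X hX1)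
      split_ifs
      · exact le_rfl
      · exact ArithmeticFunction.vonMangoldt_nonneg
    have e4 : 2 * Real.sqrt X * Real.log X ≤ 1 / L * M := by
      have e5 : Real.sqrt X ≤ N / (4 * L ^ (A + 2)) := by
        rw [Real.sqrt_le_left (by positivity), hXr, div_pow, le_div_iff₀ (by positivity)]
        calc b * (N : ℝ) * (4 * L ^ (A + 2)) ^ 2 = (16 * b * L ^ (2 * A + 4)) * (N : ℝ) := by
              rw [mul_pow, ← pow_mul, show (A + 2) * 2 = 2 * A + 4 by ring]
              ring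
          _ ≤ (N : ℝ) * (N : ℝ) := mul_le_mul_of_nonneg_right a4 hN0.le
          _ = (N : ℝ) ^ 2 := by ring
      calc 2 * Real.sqrt X * Real.log X ≤ 2 * (N / (4 * L ^ (A + 2))) * (2 * L) := by
            apply mul_le_mul _ hlX2 hlX0.le (by positivity)
            linarith
        _ ≤ 2 * ((L ^ A * M) / (4 * L ^ (A + 2))) * (2 * L) := by
            apply mul_le_mul_of_nonneg_right _ (by positivity)
            apply mul_le_mul_of_nonneg_left _ (by norm_num)
            exact div_le_div_of_nonneg_right hNM (by positivity)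
        _ = 1 / L * M := by
            rw [pow_add]
            field_simp
            norm_num
    have e5 : (1 - η) * M ≤ S * ((1 + η) * L) := by
      have k1 : S * Real.log X ≤ S * ((1 + η) * L) := mul_le_mul_of_nonneg_left hlXη hS0
      have k2 : (2 * b + 1) / L * M ≤ η * M := mul_le_mul_of_nonneg_right hLη hM0.le
      have k3 : (2 * b + 1) / L * M = 2 * b / L * M + 1 / L * M := by ring
      linarith
    have e6 : (1 - δ) * (1 + η) ≤ 1 - η := by nlinarith
    rw [div_mul_eq_mul_div, div_le_iff₀ hL0]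
    have e7 : (1 - δ) * (1 + η) * M ≤ (1 - η) * M := mul_le_mul_of_nonneg_right e6 hM0.le
    have e8 : (1 + η) * ((1 - δ) * M) ≤ (1 + η) * (S * L) := by linarith
    exact le_of_mul_le_mul_left e8 (by linarith)
  · -- upper bound
    obtain ⟨ℓ, hℓ⟩ : ∃ ℓ, ℓ = Real.log (N / L ^ (A + 2)) := ⟨_, rfl⟩
    have hℓ1 : ℓ = L - (A + 2) * Real.log L := by
      rw [hℓ, Real.log_div hN0.ne' (by positivity), Real.log_pow, ← hL]
      push_cast
      ring
    have hℓη : (1 - η) * L ≤ ℓ := by rw [hℓ1]; linarith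
    have hℓL : ℓ ≤ L := by
      rw [hℓ1]
      have : 0 ≤ ((A : ℝ) + 2) * Real.log L := mul_nonneg (by positivity) (Real.log_nonneg hL1)
      linarith
    have hℓ0 : 0 < ℓ := by nlinarith
    obtain ⟨y0, hy0⟩ : ∃ y0, y0 = ⌊(N : ℝ) / L ^ (A + 2)⌋₊ := ⟨_, rfl⟩
    have hy0r : (y0 : ℝ) ≤ 1 / L ^ 2 * M := by
      rw [hy0]
      refine (Nat.floor_le (by positivity)).trans ?_
      calc (N : ℝ) / L ^ (A + 2) ≤ (L ^ A * M) / L ^ (A + 2) := div_le_div_of_nonneg_right hNM (by positivity)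
        _ = 1 / L ^ 2 * M := by rw [pow_add]; field_simp
    have e1 : ∀ m ∈ Icc 1 M, pr (m + c) * ℓ ≤ vonMangoldt (m + c) + (if m ≤ y0 then ℓ else 0) := by
      intro m hm
      have g3 := ArithmeticFunction.vonMangoldt_nonneg (n := m + c)
      by_cases hp : (m + c).Prime
      · have : pr (m + c) = 1 := by unfold pr; rw [if_pos hp]
        rw [this, one_mul]
        split_ifs with hy
        · linarith
        · rw [add_zero, ArithmeticFunction.vonMangoldt_apply_prime hp, hℓ]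
          apply Real.log_le_log (by positivity)
          rw [not_le, hy0, Nat.floor_lt (by positivity)] at hy
          refine hy.le.trans ?_
          exact_mod_cast Nat.le_add_right m c
      · have : pr (m + c) = 0 := by unfold pr; rw [if_neg hp]
        rw [this, zero_mul]
        split_ifs
        · linarith
        · linarith
    have e2 := sum_le_sum e1
    rw [← sum_mul, ← hS, sum_add_distrib] at e2
    have e3 : ∑ m ∈ Icc 1 M, (if m ≤ y0 then ℓ else 0) ≤ y0 * ℓ := by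
      rw [← sum_filter, sum_const, nsmul_eq_mul]
      apply mul_le_mul_of_nonneg_right _ hℓ0.le
      have : (Icc 1 M).filter (fun m => m ≤ y0) ⊆ Icc 1 y0 := by
        intro m hm
        rw [mem_filter, mem_Icc] at hm
        rw [mem_Icc]
        exact ⟨hm.1.1, hm.2⟩
      have := card_le_card this
      rw [Nat.card_Icc, Nat.add_sub_cancel] at this
      exact_mod_cast this
    have e4 : y0 * ℓ ≤ 1 / L * M := by
      calc (y0 : ℝ) * ℓ ≤ (1 / L ^ 2 * M) * L := mul_le_mul hy0r hℓL hℓ0.le (by positivity)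
        _ = 1 / L * M := by field_simp
    have e5 : S * ((1 - η) * L) ≤ (1 + η) * M := by
      have k1 : S * ((1 - η) * L) ≤ S * ℓ := mul_le_mul_of_nonneg_left hℓη hS0
      have k2 : (2 * b + 1) / L * M ≤ η * M := mul_le_mul_of_nonneg_right hLη hM0.le
      have k3 : (2 * b + 1) / L * M = 2 * b / L * M + 1 / L * M := by ring
      linarith
    have e6 : 1 + η ≤ (1 + δ) * (1 - η) := by nlinarith
    rw [div_mul_eq_mul_div, le_div_iff₀ hL0]
    have e7 : (1 + η) * M ≤ (1 + δ) * (1 - η) * M := mul_le_mul_of_nonneg_right e6 hM0.le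
    have e8 : (1 - η) * (S * L) ≤ (1 - η) * ((1 + δ) * M) := by linarith
    exact le_of_mul_le_mul_left e8 (by linarith)

/-- the prime pairs in the intervals of length `N / log ^ A N` -/
theorem pair_int (A : ℕ) : ∃ K : ℝ, 0 < K ∧ ∃ n0 : ℕ, ∀ N, n0 ≤ N → ∀ c M : ℕ, (N : ℝ) ≤ Real.log N ^ A * M → ∀ h : ℕ, 1 ≤ h → h ≤ N →
    ∑ m ∈ Icc 1 M, pr (m + c) * pr (m + c + h) ≤ K * Real.log (Real.log N) ^ 2 / Real.log N ^ 2 * M := by
  obtain ⟨C, hC, hsv⟩ := Pool.Agent.Helper112.E456.sieve_two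
  obtain ⟨C', hC', hphi⟩ := phi_bd
  obtain ⟨n1, h1⟩ := loglog_small A (1 / 2) (by norm_num)
  obtain ⟨n2, h2⟩ := ev_L' 4
  refine ⟨4 * C * C' ^ 2, by positivity, n1 + n2 + 16, fun N hN c M hNM h hh hhN => ?_⟩
  have a1 := h1 N (by omega)
  have a2 := h2 N (by omega)
  have hN1 : 1 ≤ N := by omega
  have hN0 : (0 : ℝ) < N := by exact_mod_cast hN1
  have a3 := hphi N (by omega) h hh hhN
  obtain ⟨L, hL⟩ : ∃ L, L = Real.log (N : ℝ) := ⟨_, rfl⟩
  rw [← hL] at a1 a2 a3 hNM ⊢
  have hL0 : 0 < L := by linarith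
  have hM0 : (0 : ℝ) < M := by
    have : 0 < L ^ A * M := by linarith
    exact (pos_iff_pos_of_mul_pos this).1 (by positivity)
  have hM1 : 1 ≤ M := by exact_mod_cast hM0
  have hlM : L / 2 ≤ Real.log M := by
    have e1 : L ≤ Real.log (L ^ A * M) := by
      rw [hL]
      rw [hL] at hNM
      exact Real.log_le_log hN0 hNM
    rw [Real.log_mul (by positivity) hM0.ne', Real.log_pow] at e1
    linarith
  have hM2 : 2 ≤ M := by
    by_contra hcon
    have : M = 1 := by omega
    rw [this, Nat.cast_one, Real.log_one] at hlM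
    linarith
  have e1 := hsv 1 c 1 (c + h) M one_pos one_pos (Nat.coprime_one_left c) (Nat.coprime_one_left (c + h)) (by omega) hM2
  have e2 : ∑ m ∈ Icc 1 M, pr (m + c) * pr (m + c + h) =
      (((Icc 1 M).filter (fun n => (1 * n + c).Prime ∧ (1 * n + (c + h)).Prime)).card : ℝ) := by
    have e3 : ∀ m ∈ Icc 1 M, pr (m + c) * pr (m + c + h) = if ((1 * m + c).Prime ∧ (1 * m + (c + h)).Prime) then 1 else 0 := by
      intro m _
      rw [one_mul, ← add_assoc]
      unfold pr
      by_cases g1 : (m + c).Prime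
      · by_cases g2 : (m + c + h).Prime
        · rw [if_pos g1, if_pos g2, if_pos ⟨g1, g2⟩, one_mul]
        · rw [if_pos g1, if_neg g2, if_neg (fun hcon => g2 hcon.2), mul_zero]
      · rw [if_neg g1, zero_mul, if_neg (fun hcon : (m + c).Prime ∧ (m + c + h).Prime => g1 hcon.1)]
    rw [sum_congr rfl e3, ← sum_filter, sum_const, nsmul_eq_mul, mul_one]
  rw [e2]
  refine e1.trans ?_
  have e3 : (1 * 1 * (((1 * (c + h) : ℕ) : ℤ) - ((1 * c : ℕ) : ℤ)).natAbs) = h := by
    push_cast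
    omega
  rw [e3]
  have e4 : ((h : ℝ) / (Nat.totient h : ℝ)) ^ 2 ≤ (C' * Real.log L) ^ 2 := pow_le_pow_left₀ (by positivity) a3 2
  calc C * ((h : ℝ) / (Nat.totient h : ℝ)) ^ 2 * M / Real.log M ^ 2 ≤ C * (C' * Real.log L) ^ 2 * M / (L / 2) ^ 2 := by
        apply div_le_div₀ (by positivity) _ (by positivity) (pow_le_pow_left₀ (by positivity) hlM 2)
        apply mul_le_mul_of_nonneg_right _ hM0.le
        exact mul_le_mul_of_nonneg_left e4 hC.le
    _ = _ := by
        field_simp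
        ring

end Pool.Agent.N699.RC
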