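import Pool.Agent.N699.RC.Int

set_option autoImplicit false

/-! The maximal runs without primes at random positions. -/

namespace Pool.Agent.N699.RC
open Finset
open Pool.Agent.H373R2.T7
open Pool.Agent.N699.RP
open Pool.Agent.N699.GC
open Pool.Agent.W93.TD (avg_w total_w)

variable {n : ℕ}

lemma one_sub_ge (q : ℝ) (hq : 0 ≤ q) (hq3 : q ≤ 1 / 3) : Real.exp (-(q + q ^ 2)) ≤ 1 - q := by
  have h1 := Real.quadratic_le_exp_of_nonneg (show 0 ≤ q + q ^ 2 by positivity)
  have h2 : 1 ≤ (1 - q) * Real.exp (q + q ^ 2) := by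
    have h3 : 1 ≤ (1 - q) * (1 + (q + q ^ 2) + (q + q ^ 2) ^ 2 / 2) := by
      nlinarith [mul_nonneg hq hq, mul_nonneg (mul_nonneg hq hq) hq, mul_nonneg (mul_nonneg (mul_nonneg hq hq) hq) hq,
        mul_nonneg (mul_nonneg hq hq) (sub_nonneg.2 hq3)]
    exact h3.trans (mul_le_mul_of_nonneg_left h1 (by linarith))
  rw [Real.exp_neg, inv_le_iff_one_le_mul₀ (Real.exp_pos _)]
  exact h2

/-- the intervals and their laws -/
def Om (c M : Fin n → ℕ) (i : Fin n) : Finset ℕ := Icc (c i + 1) (c i + M i)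

noncomputable def pm (M : Fin n → ℕ) (i : Fin n) : ℕ → ℝ := fun _ => 1 / (M i : ℝ)

lemma q1_eq (c M : Fin n → ℕ) (i : Fin n) (x : ℕ) :
    q1 (Om c M) (pm M) i x = 1 / (M i : ℝ) * ∑ m ∈ Icc 1 (M i), pr (m + (x + c i)) := by
  unfold q1 Om pm
  rw [← mul_sum, sum_shift]
  congr 1
  apply sum_congr rfl
  intro m _
  congr 1
  ring

lemma q2_eq (c M : Fin n → ℕ) (i : Fin n) (x h : ℕ) :
    q2 (Om c M) (pm M) i x (x + h) = 1 / (M i : ℝ) * ∑ m ∈ Icc 1 (M i), pr (m + (x + c i)) * pr (m + (x + c i) + h) := by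
  unfold q2 Om pm
  rw [← mul_sum, sum_shift]
  congr 1
  apply sum_congr rfl
  intro m _
  rw [show x + (m + c i) = m + (x + c i) by ring, show x + h + (m + c i) = m + (x + c i) + h by ring]

lemma q2_comm (Ω : Fin n → Finset ℕ) (p : Fin n → ℕ → ℝ) (i : Fin n) (x y : ℕ) : q2 Ω p i x y = q2 Ω p i y x := by
  unfold q2
  exact sum_congr rfl fun u _ => by ring

open Classical in
/-- the two halves -/
theorem runs (A B : ℕ) (ε : ℝ) (hε : 0 < ε) (hε1 : ε ≤ 1) : ∃ N₀ : ℕ, ∀ N, N₀ ≤ N → ∀ (n : ℕ) (c M : Fin n → ℕ),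
    (∀ i, (N : ℝ) ≤ Real.log N ^ A * M i ∧ c i + M i ≤ B * N) →
    ((1 + ε) * Real.log N ^ 2 ≤ n →
      ∑ v ∈ Fintype.piFinset (Om c M), (if Z N v = 0 then 0 else ∏ i, pm M i (v i)) ≤ Real.exp (-(ε / 2 * Real.log N))) ∧
    (n * Real.log (Real.log N) ^ 3 ≤ Real.log N ^ 2 →
      ∑ v ∈ Fintype.piFinset (Om c M), (if (1 - ε) * (N * Real.exp (-((1 + ε) * (n / Real.log N)))) ≤ Z N v ∧
        Z N v ≤ (1 + ε) * (N * Real.exp (-((1 - ε) * (n / Real.log N)))) then 0 else ∏ i, pm M i (v i)) ≤ ε) := by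
  obtain ⟨δ, hδ⟩ : ∃ δ : ℝ, δ = ε / 4 := ⟨_, rfl⟩
  have hδ0 : 0 < δ := by rw [hδ]; positivity
  obtain ⟨n1, h1⟩ := pnt_int A B δ hδ0
  obtain ⟨K, hK, n2, h2⟩ := pair_int A
  obtain ⟨n3, h3⟩ := ev_L' (Real.exp (16 * K / ε ^ 3 + 4 * K + 4) + 16 / ε + 4 / ε ^ 3 + 8)
  refine ⟨n1 + n2 + n3 + 3, fun N hN n c M hcM => ?_⟩
  have a3 := h3 N (by omega)
  have hN1 : 1 ≤ N := by omega
  have hN0 : (0 : ℝ) < N := by exact_mod_cast hN1
  obtain ⟨L, hL⟩ : ∃ L, L = Real.log (N : ℝ) := ⟨_, rfl⟩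
  have b1 := h1 N (by omega)
  have b2 := h2 N (by omega)
  rw [← hL] at a3 b1 b2 hcM ⊢
  have w1 : 0 < Real.exp (16 * K / ε ^ 3 + 4 * K + 4) := Real.exp_pos _
  have w2 : 0 ≤ 16 / ε := by positivity
  have w3 : 0 ≤ 4 / ε ^ 3 := by positivity
  have hL8 : 8 ≤ L := by linarith
  have hL0 : 0 < L := by linarith
  have hLε : 16 ≤ ε * L := by
    have : 16 / ε ≤ L := by linarith
    rw [div_le_iff₀ hε] at this
    linarith
  have hL3 : 4 / ε ^ 3 ≤ L := by linarith
  have hlogL : 16 * K / ε ^ 3 + 4 * K + 4 ≤ Real.log L := by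
    rw [Real.le_log_iff_exp_le hL0]
    linarith
  have w4 : 0 ≤ 16 * K / ε ^ 3 := by positivity
  have hlog4 : 4 ≤ Real.log L := by linarith
  have hlog0 : 0 < Real.log L := by linarith
  have hexpL : Real.exp L = N := by rw [hL, Real.exp_log hN0]
  have hM0 : ∀ i, (0 : ℝ) < M i := by
    intro i
    have : 0 < L ^ A * M i := by linarith [(hcM i).1]
    exact (pos_iff_pos_of_mul_pos this).1 (by positivity)
  have hp : ∀ i, ∀ u ∈ Om c M i, 0 ≤ pm M i u := fun i u _ => by unfold pm; positivity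
  have hp1 : ∀ i, ∑ u ∈ Om c M i, pm M i u = 1 := by
    intro i
    unfold Om pm
    rw [sum_const, Nat.card_Icc, nsmul_eq_mul, show c i + M i + 1 - (c i + 1) = M i by omega, mul_one_div, div_self (hM0 i).ne']
  have hint : ∀ i, ∀ x ∈ Icc 1 N, (1 - δ) / L ≤ q1 (Om c M) (pm M) i x ∧ q1 (Om c M) (pm M) i x ≤ (1 + δ) / L := by
    intro i x hx
    rw [mem_Icc] at hx
    obtain ⟨k1, k2⟩ := b1 (x + c i) (M i) (hcM i).1 (by
      have := (hcM i).2
      rw [add_mul, one_mul]
      omega)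
    rw [q1_eq, one_div_mul_eq_div]
    exact ⟨(le_div_iff₀ (hM0 i)).2 k1, (div_le_iff₀ (hM0 i)).2 k2⟩
  have hδ1 : δ ≤ 1 / 4 := by rw [hδ]; linarith
  have hq0 : ∀ i, ∀ x ∈ Icc 1 N, 0 ≤ q1 (Om c M) (pm M) i x := fun i x hx =>
    le_trans (div_nonneg (by linarith) hL0.le) (hint i x hx).1
  have hqs : ∀ i, ∀ x ∈ Icc 1 N, q1 (Om c M) (pm M) i x ≤ 2 / L := fun i x hx =>
    (hint i x hx).2.trans (div_le_div_of_nonneg_right (by linarith) hL0.le)
  have h2L : 2 / L ≤ 1 / 4 := by rw [div_le_div_iff₀ hL0 (by norm_num)]; linarith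
  -- the upper bound for the expectation
  have hEup : EZ N (Om c M) (pm M) ≤ N * Real.exp (-((1 - δ) * (n / L))) := by
    unfold EZ
    have e1 : ∀ x ∈ Icc 1 N, ∏ i, (1 - q1 (Om c M) (pm M) i x) ≤ Real.exp (-((1 - δ) * (n / L))) := by
      intro x hx
      have e2 : Real.exp (-((1 - δ) * (n / L))) = ∏ _i : Fin n, Real.exp (-((1 - δ) / L)) := by
        rw [prod_const, card_univ, Fintype.card_fin, ← Real.exp_nat_mul]
        congr 1
        ring
      rw [e2]
      apply prod_le_prod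
      · intro i _
        linarith [hqs i x hx]
      · intro i _
        have e3 := Real.add_one_le_exp (-((1 - δ) / L))
        linarith [(hint i x hx).1]
    refine (sum_le_sum e1).trans (le_of_eq ?_)
    rw [sum_const, Nat.card_Icc, Nat.add_sub_cancel, nsmul_eq_mul]
  have hElow : N * Real.exp (-((1 + ε) * (n / L))) ≤ EZ N (Om c M) (pm M) := by
    unfold EZ
    have e1 : ∀ x ∈ Icc 1 N, Real.exp (-((1 + ε) * (n / L))) ≤ ∏ i, (1 - q1 (Om c M) (pm M) i x) := by
      intro x hx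
      have e2 : Real.exp (-((1 + ε) * (n / L))) = ∏ _i : Fin n, Real.exp (-((1 + ε) / L)) := by
        rw [prod_const, card_univ, Fintype.card_fin, ← Real.exp_nat_mul]
        congr 1
        ring
      rw [e2]
      apply prod_le_prod
      · intro i _
        exact (Real.exp_pos _).le
      · intro i _
        have k0 := hq0 i x hx
        have k1 := hqs i x hx
        refine le_trans ?_ (one_sub_ge _ k0 (by linarith))
        apply Real.exp_le_exp.2
        have k2 : q1 (Om c M) (pm M) i x ^ 2 ≤ δ / L := by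
          calc q1 (Om c M) (pm M) i x ^ 2 ≤ (2 / L) ^ 2 := pow_le_pow_left₀ k0 k1 2
            _ = 4 / L / L := by ring
            _ ≤ δ / L := by
                apply div_le_div_of_nonneg_right _ hL0.le
                rw [div_le_iff₀ hL0, hδ]
                linarith
        have k3 := (hint i x hx).2
        have k4 : (1 + δ) / L + δ / L ≤ (1 + ε) / L := by
          rw [← add_div]
          apply div_le_div_of_nonneg_right _ hL0.le
          rw [hδ]
          linarith
        linarith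
    refine le_trans (le_of_eq ?_) (sum_le_sum e1)
    rw [sum_const, Nat.card_Icc, Nat.add_sub_cancel, nsmul_eq_mul]
  constructor
  · intro hn
    refine (union N (Om c M) (pm M) hp hp1).trans (hEup.trans ?_)
    rw [← hexpL, ← Real.exp_add]
    apply Real.exp_le_exp.2
    have e1 : (1 + ε) * L ≤ n / L := by
      rw [le_div_iff₀ hL0]
      linarith [hn, sq L]
    have e2 : (1 - δ) * ((1 + ε) * L) ≤ (1 - δ) * (n / L) := mul_le_mul_of_nonneg_left e1 (by linarith)
    have e3 : (1 + ε / 2) * L ≤ (1 - δ) * ((1 + ε) * L) := by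
      rw [← mul_assoc]
      apply mul_le_mul_of_nonneg_right _ hL0.le
      rw [hδ]
      nlinarith
    linarith
  · intro hn
    obtain ⟨τ, hτ⟩ : ∃ τ, τ = K * Real.log L ^ 2 / L ^ 2 := ⟨_, rfl⟩
    have hτ0 : 0 ≤ τ := by rw [hτ]; positivity
    have hpair' : ∀ i, ∀ x ∈ Icc 1 N, ∀ y ∈ Icc 1 N, x < y → q2 (Om c M) (pm M) i x y ≤ τ := by
      intro i x hx y hy hxy
      rw [mem_Icc] at hx hy
      obtain ⟨h, rfl⟩ := Nat.exists_eq_add_of_lt hxy
      have e1 := b2 (x + c i) (M i) (hcM i).1 (h + 1) (by omega) (by omega)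
      rw [show x + h + 1 = x + (h + 1) by ring, q2_eq, one_div_mul_eq_div, div_le_iff₀ (hM0 i), hτ]
      exact e1
    have hpair : ∀ i, ∀ x ∈ Icc 1 N, ∀ y ∈ Icc 1 N, x ≠ y → q2 (Om c M) (pm M) i x y ≤ τ := by
      intro i x hx y hy hxy
      rcases lt_or_gt_of_ne hxy with h | h
      · exact hpair' i x hx y hy h
      · rw [q2_comm]
        exact hpair' i y hy x hx h
    have hnL : (n : ℝ) / L ≤ L / 64 := by
      have e1 : (64 : ℝ) ≤ Real.log L ^ 3 := by
        calc (64 : ℝ) = 4 ^ 3 := by norm_num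
          _ ≤ Real.log L ^ 3 := pow_le_pow_left₀ (by norm_num) hlog4 3
      have e2 : (n : ℝ) * 64 ≤ L ^ 2 := (mul_le_mul_of_nonneg_left e1 (Nat.cast_nonneg n)).trans hn
      rw [div_le_div_iff₀ hL0 (by norm_num)]
      linarith [sq L]
    have hEbig : L ≤ EZ N (Om c M) (pm M) := by
      refine le_trans ?_ hElow
      rw [← hexpL, ← Real.exp_add]
      have e1 : (1 + ε) * (n / L) ≤ 2 * (L / 64) := by
        apply mul_le_mul (by linarith) hnL (by positivity) (by norm_num)
      have e2 : L / 2 ≤ L + -((1 + ε) * (n / L)) := by linarith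
      have e3 : L ≤ Real.exp (L / 2) := by
        have := Real.quadratic_le_exp_of_nonneg (show 0 ≤ L / 2 by positivity)
        nlinarith
      exact e3.trans (Real.exp_le_exp.2 e2)
    have hE0 : 0 < EZ N (Om c M) (pm M) := by linarith
    have hch := cheb N (Om c M) (pm M) hp hp1 τ hτ0 (fun i x hx => by linarith [hqs i x hx]) hpair ε hε hE0
    have hs : 4 * (n * τ) ≤ 4 * K / Real.log L := by
      rw [hτ, le_div_iff₀ hlog0]
      calc 4 * (n * (K * Real.log L ^ 2 / L ^ 2)) * Real.log L = 4 * K * (n * Real.log L ^ 3 / L ^ 2) := by ring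
        _ ≤ 4 * K * 1 := by
            apply mul_le_mul_of_nonneg_left _ (by positivity)
            rw [div_le_one (by positivity)]
            exact hn
        _ = 4 * K := mul_one _
    have hs1 : 4 * K / Real.log L ≤ 1 := by
      rw [div_le_one hlog0]
      linarith
    have hs2 : 4 * K / Real.log L ≤ ε ^ 3 / 4 := by
      rw [div_le_div_iff₀ hlog0 (by norm_num)]
      have : 16 * K / ε ^ 3 ≤ Real.log L := by linarith
      rw [div_le_iff₀ (by positivity)] at this
      linarith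
    have hexp : Real.exp (4 * (n * τ)) - 1 ≤ ε ^ 3 / 2 := by
      obtain ⟨s, hsd⟩ : ∃ s, s = 4 * (n * τ) := ⟨_, rfl⟩
      have hs0 : 0 ≤ s := by rw [hsd]; positivity
      rw [← hsd] at hs ⊢
      have e1 := Real.abs_exp_sub_one_le (x := s) (by rw [abs_of_nonneg hs0]; linarith)
      rw [abs_of_nonneg hs0] at e1
      have e2 := le_abs_self (Real.exp s - 1)
      linarith
    have hinv : 1 / EZ N (Om c M) (pm M) ≤ ε ^ 3 / 2 := by
      have e1 : 1 / EZ N (Om c M) (pm M) ≤ 1 / (4 / ε ^ 3) := one_div_le_one_div_of_le (by positivity) (hL3.trans hEbig)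
      rw [one_div_div] at e1
      have : 0 < ε ^ 3 := by positivity
      linarith
    refine le_trans ?_ (hch.trans ?_)
    · apply sum_le_sum
      intro v hv
      have hP0 : 0 ≤ ∏ i, pm M i (v i) := prod_nonneg fun j _ => hp j _ (Fintype.mem_piFinset.1 hv j)
      by_cases hg : |Z N v - EZ N (Om c M) (pm M)| ≤ ε * EZ N (Om c M) (pm M)
      · rw [if_pos hg]
        obtain ⟨k1, k2⟩ := abs_le.1 hg
        rw [if_pos]
        constructor
        · have e1 := mul_le_mul_of_nonneg_left hElow (show 0 ≤ 1 - ε by linarith)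
          linarith
        · have e1 : EZ N (Om c M) (pm M) ≤ N * Real.exp (-((1 - ε) * (n / L))) := by
            refine hEup.trans ?_
            apply mul_le_mul_of_nonneg_left _ hN0.le
            apply Real.exp_le_exp.2
            have : (1 - ε) * (n / L) ≤ (1 - δ) * (n / L) := by
              apply mul_le_mul_of_nonneg_right _ (by positivity)
              rw [hδ]
              linarith
            linarith
          have e2 := mul_le_mul_of_nonneg_left e1 (show 0 ≤ 1 + ε by linarith)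
          linarith
      · rw [if_neg hg]
        split_ifs
        · exact hP0
        · exact le_rfl
    · rw [div_le_iff₀ (by positivity)]
      calc Real.exp (4 * (n * τ)) - 1 + 1 / EZ N (Om c M) (pm M) ≤ ε ^ 3 / 2 + ε ^ 3 / 2 := add_le_add hexp hinv
        _ = ε * ε ^ 2 := by ring

end Pool.Agent.N699.RC
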