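import Pool.Agent.Helper601.Mertens

set_option autoImplicit false

/-! The pointwise bound for `h / φ(h)`. -/

namespace Pool.Agent.N699.RC
open Finset
open Pool.Agent.Helper601.Mertens (mertens_inv)

lemma tele (n : ℕ) : ∑ m ∈ Icc 2 (n + 1), 1 / ((m : ℝ) * (m - 1)) ≤ 1 - 1 / ((n : ℝ) + 1) := by
  induction n with
  | zero => simp
  | succ n ih =>
    rw [sum_Icc_succ_top (by omega)]
    have h1 : (0 : ℝ) < (n : ℝ) + 1 := by positivity
    have h2 : 1 / (((n + 1 + 1 : ℕ) : ℝ) * (((n + 1 + 1 : ℕ) : ℝ) - 1)) = 1 / ((n : ℝ) + 1) - 1 / (((n + 1 : ℕ) : ℝ) + 1) := by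
      push_cast
      field_simp
      ring
    rw [h2]
    linarith

lemma card_pf (h : ℕ) (hh : 1 ≤ h) : (h.primeFactors.card : ℝ) * Real.log 2 ≤ Real.log h := by
  have h1 : 2 ^ h.primeFactors.card ≤ h := by
    calc 2 ^ h.primeFactors.card = ∏ _p ∈ h.primeFactors, 2 := by rw [prod_const]
      _ ≤ ∏ p ∈ h.primeFactors, p := prod_le_prod (fun _ _ => by norm_num) fun p hp => (Nat.prime_of_mem_primeFactors hp).two_le
      _ ≤ h := Nat.le_of_dvd hh (Nat.prod_primeFactors_dvd h)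
  rw [← Real.log_pow]
  apply Real.log_le_log (by positivity)
  exact_mod_cast h1

lemma ratio_exp (h : ℕ) (hh : 1 ≤ h) : (h : ℝ) / (Nat.totient h : ℝ) ≤ Real.exp (∑ p ∈ h.primeFactors, 1 / (p : ℝ) + 1) := by
  have hh0 : (0 : ℝ) < h := by exact_mod_cast hh
  have h1 : (Nat.totient h : ℝ) = h * ∏ p ∈ h.primeFactors, (1 - (p : ℝ)⁻¹) := by
    have h2 := Nat.totient_eq_mul_prod_factors h
    have h3 : ((Nat.totient h : ℚ) : ℝ) = ((h * ∏ p ∈ h.primeFactors, (1 - (p : ℚ)⁻¹) : ℚ) : ℝ) := by rw [h2]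
    push_cast at h3
    exact h3
  have hpos : ∀ p ∈ h.primeFactors, (0 : ℝ) < 1 - (p : ℝ)⁻¹ := by
    intro p hp
    have h2 : (2 : ℝ) ≤ p := by exact_mod_cast (Nat.prime_of_mem_primeFactors hp).two_le
    have h3 : (p : ℝ)⁻¹ ≤ 2⁻¹ := inv_anti₀ (by norm_num) h2
    linarith
  have hP : 0 < ∏ p ∈ h.primeFactors, (1 - (p : ℝ)⁻¹) := prod_pos hpos
  have h2 : (h : ℝ) / (Nat.totient h : ℝ) = ∏ p ∈ h.primeFactors, (1 - (p : ℝ)⁻¹)⁻¹ := by
    rw [h1, prod_inv_distrib]
    field_simp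
  rw [h2]
  have h3 : ∀ p ∈ h.primeFactors, (1 - (p : ℝ)⁻¹)⁻¹ ≤ Real.exp (1 / (p : ℝ) + 1 / ((p : ℝ) * (p - 1))) := by
    intro p hp
    have h4 : (2 : ℝ) ≤ p := by exact_mod_cast (Nat.prime_of_mem_primeFactors hp).two_le
    have h5 : (p : ℝ) - 1 ≠ 0 := by linarith
    have h6 : (p : ℝ) ≠ 0 := by linarith
    have h7 : (1 - (p : ℝ)⁻¹)⁻¹ = 1 / (p : ℝ) + 1 / ((p : ℝ) * (p - 1)) + 1 := by
      have h8 : (1 - (p : ℝ)⁻¹) ≠ 0 := (hpos p hp).ne'
      rw [inv_eq_one_div, div_eq_iff h8]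
      field_simp
      ring
    rw [h7]
    exact Real.add_one_le_exp _
  refine (prod_le_prod (fun p hp => (inv_pos.2 (hpos p hp)).le) h3).trans ?_
  rw [← Real.exp_sum, sum_add_distrib]
  apply Real.exp_le_exp.2
  have h4 : ∑ p ∈ h.primeFactors, 1 / ((p : ℝ) * (p - 1)) ≤ ∑ m ∈ Icc 2 (h + 1), 1 / ((m : ℝ) * (m - 1)) := by
    apply sum_le_sum_of_subset_of_nonneg
    · intro p hp
      rw [mem_Icc]
      exact ⟨(Nat.prime_of_mem_primeFactors hp).two_le, (Nat.le_of_mem_primeFactors hp).trans (by omega)⟩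
    · intro m hm _
      rw [mem_Icc] at hm
      have : (2 : ℝ) ≤ m := by exact_mod_cast hm.1
      have : 0 < (m : ℝ) - 1 := by linarith
      positivity
  have h5 := tele h
  have h6 : 0 ≤ 1 / ((h : ℝ) + 1) := by positivity
  linarith

/-- `h / φ(h)` is at most `C log log N` for `h ≤ N` -/
theorem phi_bd : ∃ C : ℝ, 1 ≤ C ∧ ∀ N : ℕ, 16 ≤ N → ∀ h : ℕ, 1 ≤ h → h ≤ N →
    (h : ℝ) / (Nat.totient h : ℝ) ≤ C * Real.log (Real.log N) := by
  obtain ⟨C, hC⟩ := mertens_inv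
  have hC0 : 0 ≤ C := (abs_nonneg _).trans (hC 3 le_rfl)
  refine ⟨3 * Real.exp (C + 3), ?_, fun N hN h hh hhN => ?_⟩
  · have := Real.add_one_le_exp (C + 3)
    linarith
  have hN0 : (0 : ℝ) < N := by positivity
  have hl16 : (2.7725887 : ℝ) ≤ Real.log 16 := by
    rw [show (16 : ℝ) = 2 ^ 4 by norm_num, Real.log_pow]
    have := Real.log_two_gt_d9
    push_cast
    linarith
  obtain ⟨L, hL⟩ : ∃ L, L = Real.log (N : ℝ) := ⟨_, rfl⟩
  have hL16 : (2.7725887 : ℝ) ≤ L := by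
    rw [hL]
    exact hl16.trans (Real.log_le_log (by norm_num) (by exact_mod_cast hN))
  have hL0 : 0 < L := by linarith
  have hlogL : 1 ≤ Real.log L := by
    rw [Real.le_log_iff_exp_le hL0]
    have := Real.exp_one_lt_d9
    linarith
  obtain ⟨z, hz⟩ : ∃ z, z = ⌈L⌉₊ := ⟨_, rfl⟩
  have hzL : L ≤ z := by rw [hz]; exact Nat.le_ceil _
  have hzL' : (z : ℝ) < L + 1 := by rw [hz]; exact Nat.ceil_lt_add_one hL0.le
  have hz3 : 3 ≤ z := by
    have : (2 : ℝ) < z := by linarith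
    have : 2 < z := by exact_mod_cast this
    omega
  have hz0 : (0 : ℝ) < z := by linarith
  have h1 := ratio_exp h hh
  have h2 : ∑ p ∈ h.primeFactors, 1 / (p : ℝ) ≤ ∑ p ∈ (Icc 1 z).filter Nat.Prime, (1 : ℝ) / p + h.primeFactors.card / z := by
    rw [← sum_filter_add_sum_filter_not h.primeFactors (fun p => p ≤ z)]
    apply add_le_add
    · apply sum_le_sum_of_subset_of_nonneg
      · intro p hp
        rw [mem_filter] at hp
        rw [mem_filter, mem_Icc]
        exact ⟨⟨(Nat.prime_of_mem_primeFactors hp.1).one_le, hp.2⟩, Nat.prime_of_mem_primeFactors hp.1⟩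
      · intro p _ _
        positivity
    · calc ∑ p ∈ h.primeFactors.filter (fun p => ¬ p ≤ z), 1 / (p : ℝ) ≤ ∑ _p ∈ h.primeFactors.filter (fun p => ¬ p ≤ z), 1 / (z : ℝ) := by
            apply sum_le_sum
            intro p hp
            rw [mem_filter, not_le] at hp
            apply one_div_le_one_div_of_le hz0
            exact_mod_cast hp.2.le
        _ = (h.primeFactors.filter (fun p => ¬ p ≤ z)).card / z := by rw [sum_const, nsmul_eq_mul, mul_one_div]
        _ ≤ h.primeFactors.card / z := by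
            apply div_le_div_of_nonneg_right _ hz0.le
            exact_mod_cast card_filter_le _ _
  have h3 : (h.primeFactors.card : ℝ) / z ≤ 2 := by
    have e1 := card_pf h hh
    have e2 : Real.log h ≤ L := by
      rw [hL]
      exact Real.log_le_log (by exact_mod_cast hh) (by exact_mod_cast hhN)
    have e3 := Real.log_two_gt_d9
    rw [div_le_iff₀ hz0]
    have e4 : (0 : ℝ) ≤ h.primeFactors.card := Nat.cast_nonneg _
    nlinarith
  have h4 := (abs_le.1 (hC z hz3)).2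
  have h5 : Real.log z ≤ 3 * Real.log L := by
    have e1 : Real.log z ≤ Real.log (L * L) := by
      apply Real.log_le_log hz0
      nlinarith
    rw [Real.log_mul hL0.ne' hL0.ne'] at e1
    linarith
  have hlz : 0 < Real.log z := Real.log_pos (by linarith)
  rw [← hL]
  calc (h : ℝ) / (Nat.totient h : ℝ) ≤ Real.exp (∑ p ∈ h.primeFactors, 1 / (p : ℝ) + 1) := h1
    _ ≤ Real.exp (Real.log (Real.log z) + (C + 3)) := by
        apply Real.exp_le_exp.2
        linarith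
    _ = Real.log z * Real.exp (C + 3) := by rw [Real.exp_add, Real.exp_log hlz]
    _ ≤ (3 * Real.log L) * Real.exp (C + 3) := mul_le_mul_of_nonneg_right h5 (Real.exp_pos _).le
    _ = _ := by ring

end Pool.Agent.N699.RC
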